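import Pool.Agent.Helper36.SPR.St

/-!
# Project SPR (MP_343216_nt): module `GC`
-/

set_option autoImplicit false
set_option linter.unusedSectionVars false

namespace Pool.Agent.Helper48.SPR

open Pool.Agent.Helper36.SPR
open Finset
open scoped Pointwise

section

variable {G : Type} [AddCommGroup G] [DecidableEq G]

theorem ks_zero (S : Finset G) : ks S 0 = {0} := rfl

theorem ks_succ (S : Finset G) (m : ℕ) : ks S (m + 1) = ks S m + S := rfl

theorem zero_mem_ks (S : Finset G) : (0 : G) ∈ ks S 0 := by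
  rw [ks_zero]; exact mem_singleton_self 0

theorem mem_ks_one {S : Finset G} {s : G} (hs : s ∈ S) : s ∈ ks S 1 := by
  have : (0 : G) + s ∈ ks S (0 + 1) := by
    rw [ks_succ]
    exact add_mem_add (zero_mem_ks S) hs
  simpa using this

theorem ks_add {S : Finset G} {u v : G} {m : ℕ} (hu : u ∈ ks S m) (m' : ℕ) (hv : v ∈ ks S m') :
    u + v ∈ ks S (m + m') := by
  induction m' generalizing v with
  | zero =>
    rw [ks_zero, mem_singleton] at hv
    rw [hv, add_zero u]
    exact hu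
  | succ k ih =>
    rw [ks_succ] at hv
    obtain ⟨v', hv', s, hs, rfl⟩ := mem_add.1 hv
    have h1 : (u + v') + s ∈ ks S (m + k + 1) := by
      rw [ks_succ]
      exact add_mem_add (ih hv') hs
    have e : u + (v' + s) = (u + v') + s := by abel
    rw [e]
    exact h1

theorem card_ks_le (X : Finset G) (m : ℕ) : (ks X m).card ≤ X.card ^ m := by
  induction m with
  | zero => rw [ks_zero]; simp
  | succ k ih =>
    rw [ks_succ, pow_succ]
    exact le_trans card_add_le (Nat.mul_le_mul_right _ ih)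

end

section

variable {n : ℕ} [NeZero n]

theorem mem_cov {S X : Finset (ZMod n)} {m : ℕ} {y x u v : ZMod n} (hx : x ∈ X)
    (hu : u ∈ ks S m) (hv : v ∈ ks S m) (e : y = x + (u - v)) :
    y ∈ X + (ks S m - ks S m) := by
  rw [e]
  exact add_mem_add hx (sub_mem_sub hu hv)

theorem of_cov {S X : Finset (ZMod n)} {m : ℕ} {y : ZMod n} (h : y ∈ X + (ks S m - ks S m)) :
    ∃ x ∈ X, ∃ u ∈ ks S m, ∃ v ∈ ks S m, y = x + (u - v) := by
  obtain ⟨x, hx, w, hw, rfl⟩ := mem_add.1 h
  obtain ⟨u, hu, v, hv, rfl⟩ := mem_sub.1 hw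
  exact ⟨x, hx, u, hu, v, hv, rfl⟩

theorem mul_ks {S X' : Finset (ZMod n)} {m' : ℕ} {c' : ZMod n}
    (h : ∀ s ∈ S, c' * s ∈ X' + (ks S m' - ks S m')) (m : ℕ) :
    ∀ u ∈ ks S m, ∃ y ∈ ks X' m, ∃ p ∈ ks S (m * m'), ∃ q ∈ ks S (m * m'),
      c' * u = y + (p - q) := by
  induction m with
  | zero =>
    intro u hu
    rw [ks_zero, mem_singleton] at hu
    refine ⟨0, zero_mem_ks _, 0, ?_, 0, ?_, by rw [hu]; ring⟩
    · rw [Nat.zero_mul]; exact zero_mem_ks _
    · rw [Nat.zero_mul]; exact zero_mem_ks _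
  | succ k ih =>
    intro u hu
    rw [ks_succ] at hu
    obtain ⟨u', hu', s, hs, rfl⟩ := mem_add.1 hu
    obtain ⟨y, hy, p, hp, q, hq, e⟩ := ih u' hu'
    obtain ⟨x, hx, p', hp', q', hq', e'⟩ := of_cov (h s hs)
    refine ⟨y + x, ?_, p + p', ?_, q + q', ?_, ?_⟩
    · rw [ks_succ]; exact add_mem_add hy hx
    · rw [Nat.succ_mul]; exact ks_add hp m' hp'
    · rw [Nat.succ_mul]; exact ks_add hq m' hq'
    · rw [mul_add, e, e']; ring

theorem gd_add {S : Finset (ZMod n)} {L L' : ℝ} {m m' : ℕ} {c c' : ZMod n}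
    (h : Gd S L m c) (h' : Gd S L' m' c') : Gd S (L * L') (m + m') (c + c') := by
  obtain ⟨X, hX, hc⟩ := h
  obtain ⟨X', hX', hc'⟩ := h'
  refine ⟨X + X', ?_, ?_⟩
  · have h1 : ((X + X').card : ℝ) ≤ X.card * X'.card := by exact_mod_cast card_add_le
    exact le_trans h1 (mul_le_mul hX hX' (Nat.cast_nonneg _) (le_trans (Nat.cast_nonneg _) hX))
  · intro s hs
    obtain ⟨x, hx, u, hu, v, hv, e⟩ := of_cov (hc s hs)
    obtain ⟨x', hx', u', hu', v', hv', e'⟩ := of_cov (hc' s hs)
    exact mem_cov (add_mem_add hx hx') (ks_add hu m' hu') (ks_add hv m' hv')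
      (by rw [add_mul, e, e']; ring)

theorem gd_sub {S : Finset (ZMod n)} {L L' : ℝ} {m m' : ℕ} {c c' : ZMod n}
    (h : Gd S L m c) (h' : Gd S L' m' c') : Gd S (L * L') (m + m') (c - c') := by
  obtain ⟨X, hX, hc⟩ := h
  obtain ⟨X', hX', hc'⟩ := h'
  refine ⟨X - X', ?_, ?_⟩
  · have h1 : ((X - X').card : ℝ) ≤ X.card * X'.card := by exact_mod_cast card_sub_le
    exact le_trans h1 (mul_le_mul hX hX' (Nat.cast_nonneg _) (le_trans (Nat.cast_nonneg _) hX))
  · intro s hs
    obtain ⟨x, hx, u, hu, v, hv, e⟩ := of_cov (hc s hs)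
    obtain ⟨x', hx', u', hu', v', hv', e'⟩ := of_cov (hc' s hs)
    exact mem_cov (sub_mem_sub hx hx') (ks_add hu m' hv') (ks_add hv m' hu')
      (by rw [sub_mul, e, e']; ring)

theorem gd_mul {S : Finset (ZMod n)} {L L' : ℝ} {m m' : ℕ} {c c' : ZMod n}
    (h : Gd S L m c) (h' : Gd S L' m' c') :
    Gd S (L * L' ^ (2 * m)) (2 * m * m') (c' * c) := by
  obtain ⟨X, hX, hc⟩ := h
  obtain ⟨X', hX', hc'⟩ := h'
  have hL0 : 0 ≤ L := le_trans (Nat.cast_nonneg _) hX
  have hL0' : 0 ≤ L' := le_trans (Nat.cast_nonneg _) hX'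
  refine ⟨X.image (fun x => c' * x) + (ks X' m - ks X' m), ?_, ?_⟩
  · have h1 : ((X.image (fun x => c' * x) + (ks X' m - ks X' m)).card : ℝ) ≤
        (X.image (fun x => c' * x)).card * ((ks X' m).card * (ks X' m).card) := by
      have a1 : (X.image (fun x => c' * x) + (ks X' m - ks X' m)).card ≤
          (X.image (fun x => c' * x)).card * (ks X' m - ks X' m).card := card_add_le
      have a2 : (ks X' m - ks X' m).card ≤ (ks X' m).card * (ks X' m).card := card_sub_le
      have a3 := le_trans a1 (Nat.mul_le_mul_left _ a2)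
      exact_mod_cast a3
    have h2 : ((X.image (fun x => c' * x)).card : ℝ) ≤ L :=
      le_trans (by exact_mod_cast card_image_le) hX
    have h3 : ((ks X' m).card : ℝ) ≤ L' ^ m := by
      have a1 : ((ks X' m).card : ℝ) ≤ (X'.card : ℝ) ^ m := by exact_mod_cast card_ks_le X' m
      exact le_trans a1 (pow_le_pow_left₀ (Nat.cast_nonneg _) hX' m)
    have h4 : ((ks X' m).card : ℝ) * (ks X' m).card ≤ L' ^ m * L' ^ m :=
      mul_le_mul h3 h3 (Nat.cast_nonneg _) (pow_nonneg hL0' m)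
    have h5 : L' ^ (2 * m) = L' ^ m * L' ^ m := by rw [two_mul, pow_add]
    rw [h5]
    exact le_trans h1 (mul_le_mul h2 h4 (by positivity) hL0)
  · intro s hs
    obtain ⟨x, hx, u, hu, v, hv, e⟩ := of_cov (hc s hs)
    obtain ⟨y, hy, p, hp, q, hq, e1⟩ := mul_ks hc' m u hu
    obtain ⟨y', hy', p', hp', q', hq', e2⟩ := mul_ks hc' m v hv
    have hm : 2 * m * m' = m * m' + m * m' := by ring
    rw [hm]
    refine mem_cov (x := c' * x + (y - y')) (u := p + q') (v := q + p')
      (add_mem_add (mem_image_of_mem _ hx) (sub_mem_sub hy hy'))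
      (ks_add hp _ hq') (ks_add hq _ hp') ?_
    rw [mul_assoc, e, mul_add, mul_sub, e1, e2]
    ring

theorem card_cov {S : Finset (ZMod n)} (hPL : StPL) (hS : S.Nonempty) {M : ℝ}
    (hM : ((S - S).card : ℝ) ≤ M * S.card) (Y : Finset (ZMod n)) (L : ℝ) (hY : (Y.card : ℝ) ≤ L)
    (m m' : ℕ) (T : Finset (ZMod n)) (hT : T ⊆ Y + (ks S m - ks S m')) :
    (T.card : ℝ) ≤ L * M ^ (m + m') * S.card := by
  have h1 : (T.card : ℝ) ≤ Y.card * (ks S m - ks S m').card := by
    have a1 := le_trans (card_le_card hT) (card_add_le (s := Y) (t := ks S m - ks S m'))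
    exact_mod_cast a1
  have h2 := hPL (ZMod n) S M hS hM m m'
  have h3 : (Y.card : ℝ) * (ks S m - ks S m').card ≤ L * (M ^ (m + m') * S.card) :=
    mul_le_mul hY h2 (Nat.cast_nonneg _) (le_trans (Nat.cast_nonneg _) hY)
  rw [mul_assoc]
  exact le_trans h1 h3

end

theorem hGC (hPL : StPL) : StGC := by
  intro n _ S hS
  refine ⟨fun L L' m m' c c' h h' => ⟨gd_add h h', gd_sub h h', gd_mul h h'⟩, ?_⟩
  intro M hM
  refine ⟨?_, ?_⟩
  · intro L m c h
    obtain ⟨X, hX, hc⟩ := h
    have key := card_cov hPL hS hM X L hX (m + 1) m (S + dil c S) (by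
      intro y hy
      obtain ⟨t, ht, z, hz, rfl⟩ := mem_add.1 hy
      obtain ⟨s, hs, rfl⟩ := mem_image.1 hz
      obtain ⟨x, hx, u, hu, v, hv, e⟩ := of_cov (hc s hs)
      have e1 : t + c * s = x + ((u + t) - v) := by rw [e]; ring
      rw [e1]
      refine add_mem_add hx (sub_mem_sub ?_ hv)
      rw [ks_succ]
      exact add_mem_add hu ht)
    have e2 : m + 1 + m = 2 * m + 1 := by ring
    rw [e2] at key
    exact key
  · intro L L' m m' a b ξ hb hab h h'
    obtain ⟨X, hX, hc⟩ := h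
    obtain ⟨X', hX', hc'⟩ := h'
    have hL0 : 0 ≤ L := le_trans (Nat.cast_nonneg _) hX
    have hXX : ((X + X').card : ℝ) ≤ L * L' := by
      have h1 : ((X + X').card : ℝ) ≤ X.card * X'.card := by exact_mod_cast card_add_le
      exact le_trans h1 (mul_le_mul hX hX' (Nat.cast_nonneg _) hL0)
    have hinj : Function.Injective (fun x : ZMod n => b * x) := by
      intro x y hxy
      exact hb.mul_left_cancel hxy
    have hcard : ((S + dil ξ S).image (fun x => b * x)).card = (S + dil ξ S).card :=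
      card_image_of_injective _ hinj
    have key := card_cov hPL hS hM (X + X') (L * L') hXX (m + m') (m + m')
      ((S + dil ξ S).image (fun x => b * x)) (by
      intro y hy
      obtain ⟨w, hw, rfl⟩ := mem_image.1 hy
      obtain ⟨t, ht, z, hz, rfl⟩ := mem_add.1 hw
      obtain ⟨s, hs, rfl⟩ := mem_image.1 hz
      obtain ⟨x, hx, u, hu, v, hv, e⟩ := of_cov (hc s hs)
      obtain ⟨x', hx', u', hu', v', hv', e'⟩ := of_cov (hc' t ht)
      have e1 : b * (t + ξ * s) = (x + x') + ((u + u') - (v + v')) := by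
        have a1 : b * (t + ξ * s) = b * t + (ξ * b) * s := by ring
        rw [a1, ← hab, e, e']
        ring
      show b * (t + ξ * s) ∈ _
      rw [e1]
      exact add_mem_add (add_mem_add hx hx')
        (sub_mem_sub (ks_add hu m' hu') (ks_add hv m' hv')))
    rw [hcard] at key
    have e2 : m + m' + (m + m') = 2 * (m + m') := by ring
    rw [e2] at key
    exact key

end Pool.Agent.Helper48.SPR
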