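import Pool.Agent.Helper36.SPR.St
import Pool.Agent.Helper36.SPR.St2

/-!
# Project SPR (MP_343216_nt): module `ND2`
-/

set_option autoImplicit false

namespace Pool.Agent.Helper48.SPR

open Pool.Agent.Helper36.SPR
open Finset

theorem sum_union_le_ND2 (f : ℕ → ℝ) (hf : ∀ i, 0 ≤ f i) (s t : Finset ℕ) :
    ∑ i ∈ s ∪ t, f i ≤ ∑ i ∈ s, f i + ∑ i ∈ t, f i := by
  have h := Finset.sum_union_inter (s₁ := s) (s₂ := t) (f := f)
  have h2 : 0 ≤ ∑ i ∈ s ∩ t, f i := Finset.sum_nonneg fun i _ => hf i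
  linarith

theorem hND2 (hQS : StQS) (hME : StME) : StND2 := by
  classical
  obtain ⟨C₁, h₁⟩ := hQS
  obtain ⟨C₂, h₂⟩ := hME
  intro y
  refine ⟨C₂ + C₁ + ∑ p ∈ range (y + 3), (1 : ℝ) / p, ?_⟩
  intro z hz
  set A : Finset ℕ := (Icc 1 z).filter Nat.Prime with hA
  set B : Finset ℕ := A.filter (fun p => 2 < p ∧
    (orderOf (2 : ZMod p) : ℝ) < (p : ℝ) ^ (1 / 3 : ℝ)) with hB
  set P : Finset ℕ := A.filter (fun p => y ≤ p ∧ 2 < p ∧
    (p : ℝ) ^ (1 / 3 : ℝ) ≤ orderOf (2 : ZMod p)) with hP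
  have hf : ∀ i : ℕ, (0 : ℝ) ≤ 1 / (i : ℝ) := fun i => by positivity
  refine ⟨P, ?_, ?_⟩
  · intro p hp
    rw [hP, mem_filter, hA, mem_filter, mem_Icc] at hp
    obtain ⟨⟨⟨_, h3⟩, h4⟩, h5, h6, h7⟩ := hp
    exact ⟨h4, h5, h3, h6, h7⟩
  · have hsub : A ⊆ (P ∪ range (y + 3)) ∪ B := by
      intro p hp
      rw [mem_union, mem_union]
      by_cases hr : p < y + 3
      · left; right; exact mem_range.2 hr
      · have hy : y ≤ p := by omega
        have h2 : 2 < p := by omega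
        by_cases ho : (p : ℝ) ^ (1 / 3 : ℝ) ≤ orderOf (2 : ZMod p)
        · left; left
          rw [hP, mem_filter]
          exact ⟨hp, hy, h2, ho⟩
        · right
          rw [hB, mem_filter]
          exact ⟨hp, h2, not_le.1 ho⟩
    have e1 : ∑ p ∈ A, (1 : ℝ) / p ≤ ∑ p ∈ (P ∪ range (y + 3)) ∪ B, (1 : ℝ) / p :=
      Finset.sum_le_sum_of_subset_of_nonneg hsub fun i _ _ => hf i
    have e2 := sum_union_le_ND2 (fun p : ℕ => (1 : ℝ) / p) hf (P ∪ range (y + 3)) B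
    have e3 := sum_union_le_ND2 (fun p : ℕ => (1 : ℝ) / p) hf P (range (y + 3))
    have e4 : ∑ p ∈ B, (1 : ℝ) / p ≤ C₁ := by
      apply h₁
      intro p hp
      rw [hB, mem_filter, hA, mem_filter] at hp
      exact ⟨hp.1.2, hp.2.1, hp.2.2⟩
    have e5 := h₂ z hz
    rw [← hA] at e5
    linarith

end Pool.Agent.Helper48.SPR
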